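import Mathlib
import Pool.Agent.TH231.LinDio

set_option autoImplicit false

/-! Linearizable rational maps (in particular polynomials) of degree `d` have multipliers with
`log (1 / |lam ^ m - 1|) = O (m ^ k)`, where `k` depends only on `d`. -/

namespace Pool.Agent.Results.MP_40021b_an.SubexpCondition

theorem result : ∀ d : ℕ, 2 ≤ d → ∃ k : ℕ, ∀ P Q : Polynomial ℂ, IsCoprime P Q →
    max P.natDegree Q.natDegree = d → P.eval 0 = 0 → Q.eval 0 ≠ 0 →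
    ∀ lam : ℂ, ‖lam‖ = 1 → (∀ n : ℕ, 1 ≤ n → lam ^ n ≠ 1) →
    deriv (fun z : ℂ => P.eval z / Q.eval z) 0 = lam →
    (∃ (h : ℂ → ℂ) (r : ℝ), 0 < r ∧ AnalyticAt ℂ h 0 ∧ h 0 = 0 ∧ deriv h 0 ≠ 0 ∧
      ∀ z ∈ Metric.ball (0 : ℂ) r, P.eval (h z) / Q.eval (h z) = h (lam * z)) →
    ∃ C : ℝ, ∀ m : ℕ, 1 ≤ m → Real.log (1 / ‖lam ^ m - 1‖) ≤ C * (m : ℝ) ^ k := by
  intro d hd
  exact Pool.Agent.TH231.lin_dio d hd

end Pool.Agent.Results.MP_40021b_an.SubexpCondition
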